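import Mathlib

set_option autoImplicit false

namespace Pool.Agent.W_MP_6f7bab_an

/-! ## Definitions used in the statement -/

/-- `D` is a metric on the set `X`. -/
def IsMetricOn {α : Type} (D : α → α → ℝ) (X : Set α) : Prop :=
  (∀ x ∈ X, ∀ y ∈ X, (D x y = 0 ↔ x = y)) ∧ (∀ x ∈ X, ∀ y ∈ X, D x y = D y x) ∧
    ∀ x ∈ X, ∀ y ∈ X, ∀ z ∈ X, D x z ≤ D x y + D y z

/-- The shift map on one-sided sequences. -/
def shift {A : Type} (x : ℕ → A) : ℕ → A := fun n => x (n + 1)

/-- A one-sided subshift: a nonempty closed shift-invariant set of sequences (the topology on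
`ℕ → A` is the product topology). -/
def IsSubshift {A : Type} [TopologicalSpace A] (X : Set (ℕ → A)) : Prop :=
  X.Nonempty ∧ IsClosed X ∧ ∀ x ∈ X, shift x ∈ X

/-- The first index at which two sequences differ. -/
noncomputable def firstDiff {A : Type} (x y : ℕ → A) : ℕ := sInf {n | x n ≠ y n}

open Classical in
/-- The distance `D(x,y) = d(x_Δ, y_Δ) k^(-Δ)`, where `Δ` is the first index at which `x` and `y`
differ. -/
noncomputable def seqDist {A : Type} (d : A → A → ℝ) (k : ℕ) (x y : ℕ → A) : ℝ :=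
  if x = y then 0 else d (x (firstDiff x y)) (y (firstDiff x y)) * ((k : ℝ) ^ firstDiff x y)⁻¹

/-- The Bowen distance `D_T(x,y) = max_{0 ≤ t < T} D(σ^t x, σ^t y)`. -/
noncomputable def bowenDist {A : Type} (D : (ℕ → A) → (ℕ → A) → ℝ) (T : ℕ) (x y : ℕ → A) : ℝ :=
  ⨆ t : Fin T, D (shift^[t] x) (shift^[t] y)

/-- The largest size of a set `E ⊆ X` whose distinct points have distance greater than `ε`. -/
noncomputable def sep {A : Type} (X : Set (ℕ → A)) (ε : ℝ) (D : (ℕ → A) → (ℕ → A) → ℝ) : ℕ :=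
  sSup {m : ℕ | ∃ E : Finset (ℕ → A), (∀ x ∈ E, x ∈ X) ∧
    (∀ x ∈ E, ∀ y ∈ E, x ≠ y → ε < D x y) ∧ E.card = m}

end Pool.Agent.W_MP_6f7bab_an
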