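import Mathlib

/-!
Two graphs on the 3-subsets of a 9-set whose independent sets in strong powers are small (by rank
bounds over two different fields), and the alphabet built from them.
-/

set_option autoImplicit false

namespace Pool.Agent.W_MP_6f7bab_an

open Finset

/-- Haemers' rank bound for powers. -/
lemma haemers {K α J : Type} [Field K] [Fintype J] [DecidableEq J] (T : ℕ)
    (P Q : α → J → K) (E : Finset (ℕ → α))
    (hdiag : ∀ x ∈ E, ∀ i < T, ∑ j, P (x i) j * Q (x i) j ≠ 0)
    (hoff : ∀ x ∈ E, ∀ y ∈ E, x ≠ y → ∃ i < T, ∑ j, P (x i) j * Q (y i) j = 0) :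
    E.card ≤ (Fintype.card J) ^ T := by
  classical
  let F : (ℕ → α) → (Fin T → J) → K := fun x j => ∏ i : Fin T, P (x i) (j i)
  let G : (ℕ → α) → (Fin T → J) → K := fun x j => ∏ i : Fin T, Q (x i) (j i)
  have hFG : ∀ x y, ∑ j, F x j * G y j = ∏ i : Fin T, ∑ j, P (x i) j * Q (y i) j := by
    intro x y
    rw [Finset.prod_univ_sum]
    simp only [F, G, ← Finset.prod_mul_distrib, Fintype.piFinset_univ]
  have hlin : LinearIndependent K (fun x : E => F x.1) := by
    rw [linearIndependent_iff']
    intro s c hc y hy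
    have h1 : ∑ j, (∑ x ∈ s, c x • F x.1) j * G y.1 j = 0 := by
      rw [hc]; simp
    have h2 : ∑ j, (∑ x ∈ s, c x • F x.1) j * G y.1 j
        = ∑ x ∈ s, c x * ∑ j, F x.1 j * G y.1 j := by
      simp only [Finset.sum_apply, Pi.smul_apply, smul_eq_mul, Finset.sum_mul, Finset.mul_sum]
      rw [Finset.sum_comm]
      refine Finset.sum_congr rfl fun x _ => Finset.sum_congr rfl fun j _ => by ring
    rw [h2, Finset.sum_eq_single y] at h1
    · rcases mul_eq_zero.1 h1 with h | h
      · exact h
      · exfalso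
        rw [hFG, Finset.prod_eq_zero_iff] at h
        obtain ⟨i, -, hi⟩ := h
        exact hdiag y.1 y.2 i i.2 hi
    · intro x _ hxy
      have hne : x.1 ≠ y.1 := fun h => hxy (Subtype.ext h)
      obtain ⟨i, hi, h⟩ := hoff x.1 x.2 y.1 y.2 hne
      rw [hFG, Finset.prod_eq_zero (Finset.mem_univ (⟨i, hi⟩ : Fin T)) h, mul_zero]
    · intro h; exact absurd hy h
  have := hlin.fintype_card_le_finrank
  simpa using this

/-- The 3-element subsets of a 9-element set. -/
abbrev Tri : Type := {s : Finset (Fin 9) // s.card = 3}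

/-- The alphabet: a neutral letter and two copies of `Tri`. -/
abbrev Letter : Type := Option (Bool × Tri)

/-- Pairs of letters at distance 2. -/
def Far (a b : Letter) : Prop :=
  ∃ s t : Tri, (a = some (false, s) ∧ b = some (false, t) ∧ s ≠ t ∧ (s.1 ∩ t.1).card ≠ 1) ∨
    (a = some (true, s) ∧ b = some (true, t) ∧ (s.1 ∩ t.1).card = 1)

lemma far_symm {a b : Letter} (h : Far a b) : Far b a := by
  obtain ⟨s, t, h⟩ := h
  refine ⟨t, s, ?_⟩
  rcases h with ⟨h1, h2, h3, h4⟩ | ⟨h1, h2, h3⟩
  · left; exact ⟨h2, h1, h3.symm, by rwa [Finset.inter_comm]⟩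
  · right; exact ⟨h2, h1, by rwa [Finset.inter_comm]⟩

lemma far_irrefl (a : Letter) : ¬ Far a a := by
  rintro ⟨s, t, h⟩
  rcases h with ⟨h1, h2, h3, h4⟩ | ⟨h1, h2, h3⟩
  · rw [h1] at h2
    simp at h2
    exact h3 h2
  · rw [h1] at h2
    simp at h2
    subst h2
    rw [Finset.inter_self, s.2] at h3
    omega

lemma card_tri : Fintype.card Tri = 84 := by
  have : Fintype.card Tri = ((univ : Finset (Fin 9)).powersetCard 3).card := by
    rw [Fintype.card_subtype]
    congr 1
    ext s
    simp
  rw [this, Finset.card_powersetCard]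
  rfl

lemma card_letter : Fintype.card Letter = 169 := by
  rw [Fintype.card_option, Fintype.card_prod, card_tri]
  rfl

/-- The 3-set belonging to a letter. -/
def supp : Letter → Tri
  | none => ⟨{0, 1, 2}, by decide⟩
  | some (_, s) => s

lemma sum_ind {K : Type} [Field K] (s t : Tri) :
    ∑ j : Fin 9, (if j ∈ s.1 then (1 : K) else 0) * (if j ∈ t.1 then 1 else 0)
      = ((s.1 ∩ t.1).card : K) := by
  simp only [mul_ite, mul_one, mul_zero, ← ite_and]
  rw [← Finset.sum_filter]
  simp only [Finset.sum_const, nsmul_eq_mul, mul_one]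
  congr 2
  ext j
  simp [and_comm]

/-- Words without letters of the second kind. -/
lemma cap_false (T : ℕ) (E : Finset (ℕ → Letter))
    (hE : ∀ x ∈ E, ∀ i < T, ∀ s, x i ≠ some (true, s))
    (hfar : ∀ x ∈ E, ∀ y ∈ E, x ≠ y → ∃ i < T, Far (x i) (y i)) : E.card ≤ 9 ^ T := by
  have := haemers (K := ZMod 2) (J := Fin 9) T
    (fun a j => if j ∈ (supp a).1 then 1 else 0) (fun a j => if j ∈ (supp a).1 then 1 else 0) E ?_ ?_
  · simpa using this
  · intro x hx i hi
    rw [sum_ind, Finset.inter_self, (supp (x i)).2]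
    decide
  · intro x hx y hy hxy
    obtain ⟨i, hi, hf⟩ := hfar x hx y hy hxy
    refine ⟨i, hi, ?_⟩
    rw [sum_ind]
    obtain ⟨s, t, ⟨h1, h2, h3, h4⟩ | ⟨h1, h2, h3⟩⟩ := hf
    · rw [h1, h2]
      change (((s.1 ∩ t.1).card : ℕ) : ZMod 2) = 0
      have hle : (s.1 ∩ t.1).card ≤ 3 := by
        calc (s.1 ∩ t.1).card ≤ s.1.card := Finset.card_le_card Finset.inter_subset_left
          _ = 3 := s.2
      have hne3 : (s.1 ∩ t.1).card ≠ 3 := by
        intro h
        have e1 : s.1 ∩ t.1 = s.1 := Finset.eq_of_subset_of_card_le Finset.inter_subset_left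
          (by rw [h, s.2])
        have e2 : s.1 ∩ t.1 = t.1 := Finset.eq_of_subset_of_card_le Finset.inter_subset_right
          (by rw [h, t.2])
        exact h3 (Subtype.ext (e1.symm.trans e2))
      generalize (s.1 ∩ t.1).card = c at *
      interval_cases c
      · decide
      · exact absurd rfl h4
      · decide
      · exact absurd rfl hne3
    · exact absurd h1 (hE x hx i hi s)

/-- Words without letters of the first kind. -/
lemma cap_true (T : ℕ) (E : Finset (ℕ → Letter))
    (hE : ∀ x ∈ E, ∀ i < T, ∀ s, x i ≠ some (false, s))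
    (hfar : ∀ x ∈ E, ∀ y ∈ E, x ≠ y → ∃ i < T, Far (x i) (y i)) : E.card ≤ 9 ^ T := by
  have key : ∀ s t : Tri, ∑ j : Fin 9, (if j ∈ s.1 then (1 : ℚ) else 0) *
      ((if j ∈ t.1 then 1 else 0) - 1 / 3) = ((s.1 ∩ t.1).card : ℚ) - 1 := by
    intro s t
    simp only [mul_sub, Finset.sum_sub_distrib]
    rw [sum_ind, ← Finset.sum_mul]
    have : ∑ j : Fin 9, (if j ∈ s.1 then (1 : ℚ) else 0) = 3 := by
      rw [Finset.sum_boole]
      have h : (univ.filter fun j => j ∈ s.1) = s.1 := by ext j; simp
      rw [h, s.2]; norm_num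
    rw [this]; norm_num
  have := haemers (K := ℚ) (J := Fin 9) T
    (fun a j => if j ∈ (supp a).1 then 1 else 0)
    (fun a j => (if j ∈ (supp a).1 then 1 else 0) - 1 / 3) E ?_ ?_
  · simpa using this
  · intro x hx i hi
    rw [key, Finset.inter_self, (supp (x i)).2]
    norm_num
  · intro x hx y hy hxy
    obtain ⟨i, hi, hf⟩ := hfar x hx y hy hxy
    refine ⟨i, hi, ?_⟩
    rw [key]
    obtain ⟨s, t, ⟨h1, h2, h3, h4⟩ | ⟨h1, h2, h3⟩⟩ := hf
    · exact absurd h1 (hE x hx i hi s)
    · rw [h1, h2]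
      change (((s.1 ∩ t.1).card : ℕ) : ℚ) - 1 = 0
      rw [h3]; norm_num

/-- Words supported near one position. -/
lemma cap_mixed (T m : ℕ) (E : Finset (ℕ → Letter))
    (hE : ∀ x ∈ E, ∃ i < T, ∀ j < T, x j ≠ none → j < i + 2 * m ∧ i < j + 2 * m)
    (hinj : ∀ x ∈ E, ∀ y ∈ E, (∀ i < T, x i = y i) → x = y) :
    E.card ≤ T * 169 ^ (4 * m) := by
  classical
  let pos : (ℕ → Letter) → ℕ := fun x =>
    if h : ∃ i < T, ∀ j < T, x j ≠ none → j < i + 2 * m ∧ i < j + 2 * m then h.choose else 0
  have hpos : ∀ x ∈ E, pos x < T ∧ ∀ j < T, x j ≠ none → j < pos x + 2 * m ∧ pos x < j + 2 * m := by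
    intro x hx
    have h := hE x hx
    simp only [pos, h, dif_pos]
    exact h.choose_spec
  let code : (ℕ → Letter) → ℕ × (Fin (4 * m) → Letter) := fun x =>
    (pos x, fun l => if 2 * m ≤ pos x + l then x (pos x + l - 2 * m) else none)
  have hcard : E.card ≤ (Finset.range T ×ˢ (univ : Finset (Fin (4 * m) → Letter))).card := by
    refine Finset.card_le_card_of_injOn code ?_ ?_
    · intro x hx
      simp only [code, Finset.coe_product, Set.mem_prod]
      exact ⟨by simpa using (hpos x hx).1, by simp⟩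
    · intro x hx y hy hxy
      simp only [code, Prod.mk.injEq] at hxy
      obtain ⟨h1, h2⟩ := hxy
      refine hinj x hx y hy ?_
      intro j hj
      by_cases hj' : j < pos x + 2 * m ∧ pos x < j + 2 * m
      · have hl : j + 2 * m - pos x < 4 * m := by omega
        have h3 := congrFun h2 ⟨j + 2 * m - pos x, hl⟩
        simp only at h3
        rw [← h1] at h3
        have h4 : pos x + (j + 2 * m - pos x) - 2 * m = j := by omega
        have h5 : 2 * m ≤ pos x + (j + 2 * m - pos x) := by omega
        rw [if_pos h5, if_pos h5, h4] at h3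
        exact h3
      · have hx0 : x j = none := by
          by_contra h
          exact hj' ((hpos x hx).2 j hj h)
        have hy0 : y j = none := by
          by_contra h
          exact hj' (by rw [h1]; exact (hpos y hy).2 j hj h)
        rw [hx0, hy0]
  refine hcard.trans ?_
  rw [Finset.card_product, Finset.card_range, Finset.card_univ, Fintype.card_fun, card_letter,
    Fintype.card_fin]

end Pool.Agent.W_MP_6f7bab_an
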