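import Mathlib
import Pool.Agent.W_MP_6f7bab_an.Defs
import Pool.Agent.W_MP_6f7bab_an.Capacity

set_option autoImplicit false

namespace Pool.Agent.W_MP_6f7bab_an

open Filter

/-! ## The metric -/

open Classical in
/-- The metric on letters: `0` on the diagonal, `2` on far pairs, `1` otherwise. -/
noncomputable def letterDist (a b : Letter) : ℝ := if a = b then 0 else if Far a b then 2 else 1

lemma letterDist_self (a : Letter) : letterDist a a = 0 := by simp [letterDist]

lemma one_le_letterDist {a b : Letter} (h : a ≠ b) : 1 ≤ letterDist a b := by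
  unfold letterDist
  rw [if_neg h]
  split_ifs <;> norm_num

lemma letterDist_le_two (a b : Letter) : letterDist a b ≤ 2 := by
  unfold letterDist
  split_ifs <;> norm_num

lemma one_lt_letterDist_iff (a b : Letter) : 1 < letterDist a b ↔ Far a b := by
  unfold letterDist
  by_cases h : a = b
  · subst h
    simp only [if_true]
    constructor
    · intro h; norm_num at h
    · intro h; exact absurd h (far_irrefl a)
  · rw [if_neg h]
    by_cases h' : Far a b
    · simp [h']
    · simp [h']

lemma letterDist_comm (a b : Letter) : letterDist a b = letterDist b a := by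
  unfold letterDist
  by_cases h : a = b
  · subst h; rfl
  · rw [if_neg h, if_neg (Ne.symm h)]
    by_cases h' : Far a b
    · rw [if_pos h', if_pos (far_symm h')]
    · rw [if_neg h', if_neg (fun h => h' (far_symm h))]

lemma letterDist_triangle (a b c : Letter) : letterDist a c ≤ letterDist a b + letterDist b c := by
  by_cases h1 : a = b
  · subst h1; simp [letterDist_self]
  · by_cases h2 : b = c
    · subst h2; simp [letterDist_self]
    · have := one_le_letterDist h1
      have := one_le_letterDist h2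
      have := letterDist_le_two a c
      linarith

lemma letterDist_metric : IsMetricOn letterDist Set.univ := by
  refine ⟨fun a _ b _ => ?_, fun a _ b _ => letterDist_comm a b,
    fun a _ b _ c _ => letterDist_triangle a b c⟩
  constructor
  · intro h
    by_contra hab
    have := one_le_letterDist hab
    linarith
  · rintro rfl; exact letterDist_self _

lemma firstDiff_spec {A : Type} {x y : ℕ → A} (h : x ≠ y) :
    x (firstDiff x y) ≠ y (firstDiff x y) := by
  have hne : {n | x n ≠ y n}.Nonempty := by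
    by_contra hcon
    apply h
    funext n
    by_contra hn
    exact hcon ⟨n, hn⟩
  exact Nat.sInf_mem hne

lemma firstDiff_le {A : Type} {x y : ℕ → A} {n : ℕ} (h : x n ≠ y n) : firstDiff x y ≤ n :=
  Nat.sInf_le h

lemma eq_of_lt_firstDiff {A : Type} {x y : ℕ → A} {n : ℕ} (h : n < firstDiff x y) : x n = y n := by
  by_contra hn
  exact absurd (firstDiff_le hn) (by omega)

lemma firstDiff_comm {A : Type} (x y : ℕ → A) : firstDiff x y = firstDiff y x := by
  unfold firstDiff
  congr 1
  ext n
  exact ne_comm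

lemma seqDist_of_ne {A : Type} (d : A → A → ℝ) (k : ℕ) {x y : ℕ → A} (h : x ≠ y) :
    seqDist d k x y = d (x (firstDiff x y)) (y (firstDiff x y)) * ((k : ℝ) ^ firstDiff x y)⁻¹ := by
  unfold seqDist
  rw [if_neg h]

lemma seqDist_self {A : Type} (d : A → A → ℝ) (k : ℕ) (x : ℕ → A) : seqDist d k x x = 0 := by
  unfold seqDist
  rw [if_pos rfl]

lemma seqDist_lower {x y : ℕ → Letter} (h : x ≠ y) {n : ℕ} (hn : x n ≠ y n) :
    ((2 : ℝ) ^ n)⁻¹ ≤ seqDist letterDist 2 x y := by
  rw [seqDist_of_ne _ _ h]
  have h1 := one_le_letterDist (firstDiff_spec h)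
  have h2 : ((2 : ℝ) ^ n)⁻¹ ≤ ((2 : ℝ) ^ firstDiff x y)⁻¹ := by
    apply inv_anti₀ (by positivity)
    exact pow_le_pow_right₀ (by norm_num) (firstDiff_le hn)
  have h3 : (0 : ℝ) < ((2 : ℝ) ^ firstDiff x y)⁻¹ := by positivity
  have h4 : ((2 : ℕ) : ℝ) = 2 := by norm_num
  rw [h4]
  nlinarith

lemma seqDist_nonneg (x y : ℕ → Letter) : 0 ≤ seqDist letterDist 2 x y := by
  by_cases h : x = y
  · subst h; rw [seqDist_self]
  · have h1 := seqDist_lower h (firstDiff_spec h)
    have h3 : (0 : ℝ) < ((2 : ℝ) ^ firstDiff x y)⁻¹ := by positivity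
    linarith

lemma seqDist_metric (X : Set (ℕ → Letter)) : IsMetricOn (seqDist letterDist 2) X := by
  refine ⟨fun x _ y _ => ?_, fun x _ y _ => ?_, fun x _ y _ z _ => ?_⟩
  · constructor
    · intro h
      by_contra hxy
      have h1 := seqDist_lower hxy (firstDiff_spec hxy)
      have h3 : (0 : ℝ) < ((2 : ℝ) ^ firstDiff x y)⁻¹ := by positivity
      linarith
    · rintro rfl; exact seqDist_self _ _ _
  · by_cases h : x = y
    · subst h; rfl
    · rw [seqDist_of_ne _ _ h, seqDist_of_ne _ _ (Ne.symm h), firstDiff_comm y x, letterDist_comm]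
  · by_cases hxz : x = z
    · subst hxz
      rw [seqDist_self]
      have := seqDist_nonneg x y
      have := seqDist_nonneg y x
      linarith
    by_cases hxy : x = y
    · subst hxy
      rw [seqDist_self]; linarith
    by_cases hyz : y = z
    · subst hyz
      rw [seqDist_self]; linarith
    -- all three distinct
    set n := firstDiff x z with hn
    have hnz : x n ≠ z n := firstDiff_spec hxz
    have hD : seqDist letterDist 2 x z = letterDist (x n) (z n) * ((2 : ℝ) ^ n)⁻¹ := by
      rw [seqDist_of_ne _ _ hxz]; norm_num [hn]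
    have hpos : (0 : ℝ) < ((2 : ℝ) ^ n)⁻¹ := by positivity
    by_cases hp : ∃ p < n, x p ≠ y p
    · obtain ⟨p, hpn, hp⟩ := hp
      have h1 := seqDist_lower hxy hp
      have h2 := seqDist_nonneg y z
      have h3 := letterDist_le_two (x n) (z n)
      have h4 : 2 * ((2 : ℝ) ^ n)⁻¹ ≤ ((2 : ℝ) ^ p)⁻¹ := by
        have : ((2 : ℝ) ^ n)⁻¹ ≤ ((2 : ℝ) ^ (p + 1))⁻¹ := by
          apply inv_anti₀ (by positivity)
          exact pow_le_pow_right₀ (by norm_num) hpn
        rw [pow_succ, mul_inv] at this
        linarith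
      rw [hD]
      nlinarith
    · push Not at hp
      -- `x` and `y` agree before `n`, hence so do `y` and `z`
      have hyzn : ∀ p < n, y p = z p := by
        intro p hpn
        rw [← hp p hpn]
        exact eq_of_lt_firstDiff hpn
      by_cases hxyn : x n = y n
      · -- then the first difference of `y` and `z` is `n`
        have hyz' : y n ≠ z n := by rw [← hxyn]; exact hnz
        have hf : firstDiff y z = n := by
          apply le_antisymm (firstDiff_le hyz')
          by_contra hlt
          push Not at hlt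
          exact firstDiff_spec hyz (hyzn _ hlt)
        have h1 : seqDist letterDist 2 y z = letterDist (x n) (z n) * ((2 : ℝ) ^ n)⁻¹ := by
          rw [seqDist_of_ne _ _ hyz, hf, hxyn]; norm_num
        rw [hD, h1]
        have := seqDist_nonneg x y
        linarith
      · have hf : firstDiff x y = n := by
          apply le_antisymm (firstDiff_le hxyn)
          by_contra hlt
          push Not at hlt
          exact firstDiff_spec hxy (hp _ hlt)
        have h1 : seqDist letterDist 2 x y = letterDist (x n) (y n) * ((2 : ℝ) ^ n)⁻¹ := by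
          rw [seqDist_of_ne _ _ hxy, hf]; norm_num
        by_cases hyzn' : y n = z n
        · rw [hD, h1, hyzn']
          have := seqDist_nonneg y z
          linarith
        · have hf' : firstDiff y z = n := by
            apply le_antisymm (firstDiff_le hyzn')
            by_contra hlt
            push Not at hlt
            exact firstDiff_spec hyz (hyzn _ hlt)
          have h2 : seqDist letterDist 2 y z = letterDist (y n) (z n) * ((2 : ℝ) ^ n)⁻¹ := by
            rw [seqDist_of_ne _ _ hyz, hf']; norm_num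
          rw [hD, h1, h2]
          have := letterDist_triangle (x n) (y n) (z n)
          nlinarith

lemma shift_iterate {A : Type} (x : ℕ → A) (t n : ℕ) : (shift^[t] x) n = x (n + t) := by
  induction t generalizing x with
  | zero => rfl
  | succ t ih =>
    rw [Function.iterate_succ_apply, ih]
    simp only [shift]
    congr 1

lemma one_lt_seqDist_iff (x y : ℕ → Letter) : 1 < seqDist letterDist 2 x y ↔ Far (x 0) (y 0) := by
  by_cases h : x = y
  · subst h
    rw [seqDist_self]
    constructor
    · intro h; norm_num at h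
    · intro h; exact absurd h (far_irrefl _)
  · rw [seqDist_of_ne _ _ h]
    by_cases h0 : x 0 = y 0
    · constructor
      · intro h1
        exfalso
        have hpos : 1 ≤ firstDiff x y := by
          by_contra hlt
          have h2 : firstDiff x y = 0 := by omega
          have := firstDiff_spec h
          rw [h2] at this
          exact this h0
        have h3 := letterDist_le_two (x (firstDiff x y)) (y (firstDiff x y))
        have h4 : (((2 : ℕ) : ℝ) ^ firstDiff x y)⁻¹ ≤ 1 / 2 := by
          have : (((2 : ℕ) : ℝ) ^ firstDiff x y)⁻¹ ≤ ((2 : ℝ) ^ 1)⁻¹ := by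
            have h5 : ((2 : ℕ) : ℝ) = 2 := by norm_num
            rw [h5]
            apply inv_anti₀ (by positivity)
            exact pow_le_pow_right₀ (by norm_num) hpos
          linarith [this]
        have h5 : (0 : ℝ) < (((2 : ℕ) : ℝ) ^ firstDiff x y)⁻¹ := by positivity
        nlinarith
      · intro h1
        rw [h0] at h1
        exact absurd h1 (far_irrefl _)
    · have h1 : firstDiff x y = 0 := by
        have := firstDiff_le h0
        omega
      rw [h1]
      simp only [pow_zero, inv_one, mul_one]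
      exact one_lt_letterDist_iff _ _

lemma one_lt_bowenDist_iff (T : ℕ) (x y : ℕ → Letter) :
    1 < bowenDist (seqDist letterDist 2) T x y ↔ ∃ t < T, Far (x t) (y t) := by
  unfold bowenDist
  rcases Nat.eq_zero_or_pos T with rfl | hT
  · constructor
    · intro h
      rw [Real.iSup_of_isEmpty] at h
      norm_num at h
    · rintro ⟨t, ht, -⟩; omega
  · have : Nonempty (Fin T) := ⟨⟨0, hT⟩⟩
    rw [lt_ciSup_iff (Set.finite_range _).bddAbove]
    constructor
    · rintro ⟨t, ht⟩
      rw [one_lt_seqDist_iff, shift_iterate, shift_iterate, Nat.zero_add] at ht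
      exact ⟨t, t.2, ht⟩
    · rintro ⟨t, hT, ht⟩
      refine ⟨⟨t, hT⟩, ?_⟩
      rw [one_lt_seqDist_iff, shift_iterate, shift_iterate, Nat.zero_add]
      exact ht

/-! ## The subshift -/

/-- The forbidden distances. -/
def Forb (n : ℕ) : Prop := ∃ k : ℕ, 1000 ^ (2 * k) ≤ n ∧ n ≤ 1000 ^ (2 * k + 1)

/-- The subshift: letters of the two kinds do not occur at a forbidden distance. -/
def XX : Set (ℕ → Letter) :=
  {x | ∀ i j s t, x i = some (false, s) → x j = some (true, t) →
    (i ≤ j → ¬ Forb (j - i)) ∧ (j ≤ i → ¬ Forb (i - j))}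

lemma XX_subshift [TopologicalSpace Letter] [DiscreteTopology Letter] : IsSubshift XX := by
  refine ⟨⟨fun _ => none, fun i j s t h => by simp at h⟩, ?_, ?_⟩
  · have : XX = ⋂ i, ⋂ j, ⋂ s, ⋂ t, {x : ℕ → Letter | x i = some (false, s) →
        x j = some (true, t) → (i ≤ j → ¬ Forb (j - i)) ∧ (j ≤ i → ¬ Forb (i - j))} := by
      ext x; simp [XX]
    rw [this]
    refine isClosed_iInter fun i => isClosed_iInter fun j => isClosed_iInter fun s =>
      isClosed_iInter fun t => ?_
    have hc : IsClosed ((fun x : ℕ → Letter => (x i, x j)) ⁻¹' {p : Letter × Letter |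
        p.1 = some (false, s) → p.2 = some (true, t) →
        (i ≤ j → ¬ Forb (j - i)) ∧ (j ≤ i → ¬ Forb (i - j))}) :=
      (isClosed_discrete _).preimage ((continuous_apply i).prodMk (continuous_apply j))
    exact hc
  · intro x hx i j s t hi hj
    have := hx (i + 1) (j + 1) s t hi hj
    constructor
    · intro hij
      have := this.1 (by omega)
      rwa [show j + 1 - (i + 1) = j - i by omega] at this
    · intro hij
      have := this.2 (by omega)
      rwa [show i + 1 - (j + 1) = i - j by omega] at this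

/-- Separated sets in terms of far letters. -/
def Sepd (T : ℕ) (E : Finset (ℕ → Letter)) : Prop :=
  (∀ x ∈ E, x ∈ XX) ∧ ∀ x ∈ E, ∀ y ∈ E, x ≠ y → ∃ t < T, Far (x t) (y t)

lemma sep_set_eq (T : ℕ) : {m : ℕ | ∃ E : Finset (ℕ → Letter), (∀ x ∈ E, x ∈ XX) ∧
    (∀ x ∈ E, ∀ y ∈ E, x ≠ y → 1 < bowenDist (seqDist letterDist 2) T x y) ∧ E.card = m} =
    {m : ℕ | ∃ E : Finset (ℕ → Letter), Sepd T E ∧ E.card = m} := by
  ext m
  constructor
  · rintro ⟨E, h1, h2, h3⟩
    exact ⟨E, ⟨h1, fun x hx y hy hxy => (one_lt_bowenDist_iff T x y).1 (h2 x hx y hy hxy)⟩, h3⟩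
  · rintro ⟨E, ⟨h1, h2⟩, h3⟩
    exact ⟨E, h1, fun x hx y hy hxy => (one_lt_bowenDist_iff T x y).2 (h2 x hx y hy hxy), h3⟩

lemma Sepd.inj {T : ℕ} {E : Finset (ℕ → Letter)} (h : Sepd T E) :
    ∀ x ∈ E, ∀ y ∈ E, (∀ i < T, x i = y i) → x = y := by
  intro x hx y hy hxy
  by_contra hne
  obtain ⟨t, ht, hf⟩ := h.2 x hx y hy hne
  rw [hxy t ht] at hf
  exact far_irrefl _ hf

lemma sepd_bdd (T : ℕ) : BddAbove {m : ℕ | ∃ E : Finset (ℕ → Letter), Sepd T E ∧ E.card = m} := by
  classical
  refine ⟨(Finset.univ : Finset (Fin T → Letter)).card, ?_⟩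
  rintro m ⟨E, hE, rfl⟩
  refine Finset.card_le_card_of_injOn (fun x i => x i) (fun x _ => by simp) ?_
  intro x hx y hy hxy
  refine hE.inj x hx y hy ?_
  intro i hi
  exact congrFun hxy ⟨i, hi⟩

/-- Upper bound at the scales `1000^(2k+1)`. -/
lemma sepd_upper (k : ℕ) (E : Finset (ℕ → Letter)) (hE : Sepd (1000 ^ (2 * k + 1)) E) :
    E.card ≤ 3 * 9 ^ (1000 ^ (2 * k + 1)) := by
  classical
  set T := 1000 ^ (2 * k + 1) with hT
  set m := 1000 ^ (2 * k) with hm
  have hTm : T = 1000 * m := by rw [hT, hm, pow_succ]; ring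
  have hm1 : 1 ≤ m := Nat.one_le_pow _ _ (by norm_num)
  let E1 := E.filter fun x => ∀ i < T, ∀ s, x i ≠ some (true, s)
  let E2 := E.filter fun x => ∀ i < T, ∀ s, x i ≠ some (false, s)
  let E3 := E.filter fun x => (∃ i < T, ∃ s, x i = some (false, s)) ∧
    ∃ i < T, ∃ s, x i = some (true, s)
  have hcover : E ⊆ E1 ∪ (E2 ∪ E3) := by
    intro x hx
    by_cases h1 : ∀ i < T, ∀ s, x i ≠ some (true, s)
    · exact Finset.mem_union_left _ (Finset.mem_filter.2 ⟨hx, h1⟩)
    · by_cases h2 : ∀ i < T, ∀ s, x i ≠ some (false, s)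
      · exact Finset.mem_union_right _ (Finset.mem_union_left _ (Finset.mem_filter.2 ⟨hx, h2⟩))
      · refine Finset.mem_union_right _ (Finset.mem_union_right _ (Finset.mem_filter.2 ⟨hx, ?_⟩))
        push Not at h1 h2
        exact ⟨h2, h1⟩
  have hsub : ∀ F ⊆ E, ∀ x ∈ F, ∀ y ∈ F, x ≠ y → ∃ t < T, Far (x t) (y t) :=
    fun F hF x hx y hy => hE.2 x (hF hx) y (hF hy)
  have c1 : E1.card ≤ 9 ^ T := cap_false T E1
    (fun x hx => (Finset.mem_filter.1 hx).2) (hsub E1 (Finset.filter_subset _ _))
  have c2 : E2.card ≤ 9 ^ T := cap_true T E2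
    (fun x hx => (Finset.mem_filter.1 hx).2) (hsub E2 (Finset.filter_subset _ _))
  have c3 : E3.card ≤ T * 169 ^ (4 * m) := by
    refine cap_mixed T m E3 ?_ ?_
    · intro x hx
      obtain ⟨hxE, ⟨i, hi, s, his⟩, ⟨j, hj, t, hjt⟩⟩ := Finset.mem_filter.1 hx
      have hX := hE.1 x hxE
      -- letters of different kinds in the window have distance `< m`
      have hclose : ∀ a < T, ∀ b < T, ∀ s t, x a = some (false, s) → x b = some (true, t) →
          a < b + m ∧ b < a + m := by
        intro a ha b hb s t has hbt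
        have h := hX a b s t has hbt
        constructor
        · by_contra hcon
          push Not at hcon
          exact h.2 (by omega) ⟨k, by omega, by omega⟩
        · by_contra hcon
          push Not at hcon
          exact h.1 (by omega) ⟨k, by omega, by omega⟩
      refine ⟨i, hi, fun l hl hne => ?_⟩
      have hij := hclose i hi j hj s t his hjt
      rcases hxl : x l with _ | ⟨b, u⟩
      · exact absurd hxl hne
      · cases b with
        | false =>
          have := hclose l hl j hj u t hxl hjt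
          omega
        | true =>
          have := hclose i hi l hl s u his hxl
          omega
    · intro x hx y hy
      exact hE.inj x (Finset.filter_subset _ _ hx) y (Finset.filter_subset _ _ hy)
  have c4 : T * 169 ^ (4 * m) ≤ 9 ^ T := by
    have h0 : m < 2 ^ m := Nat.lt_two_pow_self
    have h1 : T ≤ 2 ^ (11 * m) := by
      rw [hTm]
      calc 1000 * m ≤ 2 ^ 10 * 2 ^ m := Nat.mul_le_mul (by norm_num) h0.le
        _ = 2 ^ (10 + m) := by rw [← pow_add]
        _ ≤ 2 ^ (11 * m) := Nat.pow_le_pow_right (by norm_num) (by omega)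
    have h2 : 169 ^ (4 * m) ≤ 2 ^ (30 * m) := by
      rw [pow_mul, pow_mul]
      exact Nat.pow_le_pow_left (by norm_num) m
    have h3 : 2 ^ (11 * m) * 2 ^ (30 * m) ≤ 9 ^ T := by
      rw [← pow_add, hTm]
      calc 2 ^ (11 * m + 30 * m) ≤ 2 ^ (1000 * m) := Nat.pow_le_pow_right (by norm_num) (by omega)
        _ ≤ 9 ^ (1000 * m) := Nat.pow_le_pow_left (by norm_num) _
    exact (Nat.mul_le_mul h1 h2).trans h3
  calc E.card ≤ (E1 ∪ (E2 ∪ E3)).card := Finset.card_le_card hcover
    _ ≤ E1.card + (E2.card + E3.card) :=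
      (Finset.card_union_le _ _).trans (by gcongr; exact Finset.card_union_le _ _)
    _ ≤ 3 * 9 ^ T := by omega

/-- The words used for the lower bound. -/
def codeWord (n R : ℕ) (f : ℕ → Tri) : ℕ → Letter := fun i =>
  if i < n then some (false, f i) else
    if n + R ≤ i ∧ i < 2 * n + R then some (true, f (i - (n + R))) else none

lemma codeWord_mem (k n R : ℕ) (hR : R = 1000 ^ (2 * k + 1)) (hn : 2 * n + R = 1000 ^ (2 * k + 2))
    (f : ℕ → Tri) : codeWord n R f ∈ XX := by
  intro i j s t hi hj
  have hi' : i < n := by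
    unfold codeWord at hi
    by_contra h
    rw [if_neg h] at hi
    split_ifs at hi
    simp at hi
  have hj' : n + R ≤ j ∧ j < 2 * n + R := by
    unfold codeWord at hj
    by_contra h
    split_ifs at hj
    simp at hj
  refine ⟨fun _ => ?_, fun h => by omega⟩
  rintro ⟨l, hl1, hl2⟩
  rcases Nat.lt_or_ge k l with hkl | hkl
  · have : 1000 ^ (2 * k + 2) ≤ 1000 ^ (2 * l) := Nat.pow_le_pow_right (by norm_num) (by omega)
    omega
  · have : 1000 ^ (2 * l + 1) ≤ 1000 ^ (2 * k + 1) := Nat.pow_le_pow_right (by norm_num) (by omega)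
    omega

/-- Lower bound at the scales `1000^(2k+2)`. -/
lemma sepd_lower (k : ℕ) : ∃ E : Finset (ℕ → Letter), Sepd (1000 ^ (2 * k + 2)) E ∧
    E.card = 84 ^ (499500 * 1000 ^ (2 * k)) := by
  classical
  set n := 499500 * 1000 ^ (2 * k) with hn
  set R := 1000 ^ (2 * k + 1) with hR
  have hT : 2 * n + R = 1000 ^ (2 * k + 2) := by
    rw [hn, hR, pow_succ, pow_succ (n := 2 * k + 1), pow_succ]; ring
  let ext : (Fin n → Tri) → ℕ → Tri := fun f i =>
    if h : i < n then f ⟨i, h⟩ else ⟨{0, 1, 2}, by decide⟩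
  have hext : ∀ f (i : Fin n), ext f i = f i := fun f i => by simp [ext]
  let F : (Fin n → Tri) → ℕ → Letter := fun f => codeWord n R (ext f)
  have hfar : ∀ f g, f ≠ g → ∃ t < 1000 ^ (2 * k + 2), Far (F f t) (F g t) := by
    intro f g hfg
    obtain ⟨l, hl⟩ := Function.ne_iff.1 hfg
    by_cases h1 : ((f l).1 ∩ (g l).1).card = 1
    · refine ⟨n + R + l, by have := l.2; omega, f l, g l, Or.inr ⟨?_, ?_, h1⟩⟩
      · have := l.2
        simp only [F, codeWord]
        rw [if_neg (by omega), if_pos (by omega), show n + R + ↑l - (n + R) = (l : ℕ) by omega,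
          hext]
      · have := l.2
        simp only [F, codeWord]
        rw [if_neg (by omega), if_pos (by omega), show n + R + ↑l - (n + R) = (l : ℕ) by omega,
          hext]
    · refine ⟨l, by have := l.2; omega, f l, g l, Or.inl ⟨?_, ?_, hl, h1⟩⟩
      · simp only [F, codeWord]
        rw [if_pos l.2, hext]
      · simp only [F, codeWord]
        rw [if_pos l.2, hext]
  have hinj : Function.Injective F := by
    intro f g hfg
    by_contra hne
    obtain ⟨t, -, ht⟩ := hfar f g hne
    rw [hfg] at ht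
    exact far_irrefl _ ht
  refine ⟨Finset.univ.image F, ⟨?_, ?_⟩, ?_⟩
  · intro x hx
    obtain ⟨f, -, rfl⟩ := Finset.mem_image.1 hx
    exact codeWord_mem k n R hR hT _
  · intro x hx y hy hxy
    obtain ⟨f, -, rfl⟩ := Finset.mem_image.1 hx
    obtain ⟨g, -, rfl⟩ := Finset.mem_image.1 hy
    exact hfar f g (fun h => hxy (by rw [h]))
  · rw [Finset.card_image_of_injective _ hinj, Finset.card_univ, Fintype.card_fun, card_tri,
      Fintype.card_fin]

/-- The quantity whose growth is studied. -/
noncomputable def rate (T : ℕ) : ℝ :=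
  Real.log (sep XX 1 (bowenDist (seqDist letterDist 2) T)) / T

lemma sep_eq (T : ℕ) : sep XX 1 (bowenDist (seqDist letterDist 2) T) =
    sSup {m : ℕ | ∃ E : Finset (ℕ → Letter), Sepd T E ∧ E.card = m} := by
  unfold sep
  rw [sep_set_eq]

lemma rate_upper (k : ℕ) : rate (1000 ^ (2 * k + 1)) ≤ Real.log 9 + Real.log 3 / 1000 := by
  set T := 1000 ^ (2 * k + 1) with hT
  have hT1 : (1000 : ℝ) ≤ (T : ℝ) := by
    have : 1000 ≤ T := by
      rw [hT, pow_succ]
      have := Nat.one_le_pow (2 * k) 1000 (by norm_num)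
      omega
    exact_mod_cast this
  have hsep : sep XX 1 (bowenDist (seqDist letterDist 2) T) ≤ 3 * 9 ^ T := by
    rw [sep_eq]
    refine csSup_le ⟨0, ∅, ⟨by simp, by simp⟩, rfl⟩ ?_
    rintro m ⟨E, hE, rfl⟩
    exact sepd_upper k E hE
  have hsep' : (sep XX 1 (bowenDist (seqDist letterDist 2) T) : ℝ) ≤ 3 * 9 ^ T := by
    exact_mod_cast hsep
  have hlog : Real.log (sep XX 1 (bowenDist (seqDist letterDist 2) T)) ≤
      Real.log 3 + T * Real.log 9 := by
    rw [← Real.log_pow, ← Real.log_mul (by norm_num) (by positivity)]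
    rcases Nat.eq_zero_or_pos (sep XX 1 (bowenDist (seqDist letterDist 2) T)) with h0 | h0
    · rw [h0]
      simp only [Nat.cast_zero, Real.log_zero]
      apply Real.log_nonneg
      have : (1 : ℝ) ≤ 9 ^ T := one_le_pow₀ (by norm_num)
      linarith
    · exact Real.log_le_log (by exact_mod_cast h0) hsep'
  unfold rate
  have hTpos : (0 : ℝ) < T := by linarith
  rw [div_le_iff₀ hTpos]
  have h3 : 0 ≤ Real.log 3 := Real.log_nonneg (by norm_num)
  have h4 : Real.log 3 ≤ Real.log 3 / 1000 * T := by
    calc Real.log 3 = Real.log 3 / 1000 * 1000 := by ring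
      _ ≤ Real.log 3 / 1000 * T := by
        apply mul_le_mul_of_nonneg_left hT1 (by positivity)
  linarith

lemma rate_lower (k : ℕ) : 999 / 2000 * Real.log 84 ≤ rate (1000 ^ (2 * k + 2)) := by
  set T := 1000 ^ (2 * k + 2) with hT
  obtain ⟨E, hE, hcard⟩ := sepd_lower k
  have hsep : 84 ^ (499500 * 1000 ^ (2 * k)) ≤ sep XX 1 (bowenDist (seqDist letterDist 2) T) := by
    rw [sep_eq, ← hcard]
    exact le_csSup (sepd_bdd T) ⟨E, hE, rfl⟩
  have hsep' : (84 : ℝ) ^ (499500 * 1000 ^ (2 * k)) ≤
      (sep XX 1 (bowenDist (seqDist letterDist 2) T) : ℝ) := by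
    exact_mod_cast hsep
  have hlog : ((499500 * 1000 ^ (2 * k) : ℕ) : ℝ) * Real.log 84 ≤
      Real.log (sep XX 1 (bowenDist (seqDist letterDist 2) T)) := by
    rw [← Real.log_pow]
    exact Real.log_le_log (by positivity) hsep'
  unfold rate
  have hTpos : (0 : ℝ) < (T : ℝ) := by
    rw [hT]; positivity
  rw [le_div_iff₀ hTpos]
  refine le_trans (le_of_eq ?_) hlog
  rw [hT]
  push_cast
  rw [pow_succ, pow_succ]
  ring

lemma rates_ne : Real.log 9 + Real.log 3 / 1000 < 999 / 2000 * Real.log 84 := by
  have h1 : Real.log (2 * (9 : ℝ) ^ 54) < Real.log ((84 : ℝ) ^ 27) :=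
    Real.log_lt_log (by positivity) (by norm_num)
  have h2 : Real.log (9 * 3) < Real.log ((2 : ℝ) ^ 5) :=
    Real.log_lt_log (by positivity) (by norm_num)
  rw [Real.log_mul (by positivity) (by positivity), Real.log_pow, Real.log_pow] at h1
  rw [Real.log_mul (by positivity) (by positivity), Real.log_pow] at h2
  push_cast at h1 h2
  have h3 : 0 < Real.log 2 := Real.log_pos (by norm_num)
  linarith

/-- There are a one-sided subshift `X` over a finite alphabet, a metric `d` on the alphabet, an
integer `k > 1` for which `D` is a metric on `X`, and `ε > 0`, such that the exponential growth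
rate of `sep(X, ε, D_T)` does not exist. -/
theorem main : ∃ (A : Type) (_ : Fintype A) (_ : TopologicalSpace A) (_ : DiscreteTopology A)
    (X : Set (ℕ → A)) (d : A → A → ℝ) (k : ℕ) (ε : ℝ),
    IsSubshift X ∧ IsMetricOn d Set.univ ∧ 1 < k ∧ IsMetricOn (seqDist d k) X ∧ 0 < ε ∧
    Filter.liminf (fun T : ℕ =>
      ((Real.log (sep X ε (bowenDist (seqDist d k) T)) / T : ℝ) : EReal)) Filter.atTop <
    Filter.limsup (fun T : ℕ =>
      ((Real.log (sep X ε (bowenDist (seqDist d k) T)) / T : ℝ) : EReal)) Filter.atTop := by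
  let _ : TopologicalSpace Letter := ⊥
  have _ : DiscreteTopology Letter := ⟨rfl⟩
  refine ⟨Letter, inferInstance, inferInstance, inferInstance, XX, letterDist, 2, 1,
    XX_subshift, letterDist_metric, by norm_num, seqDist_metric XX, by norm_num, ?_⟩
  have h1 : Filter.liminf (fun T : ℕ => ((rate T : ℝ) : EReal)) Filter.atTop ≤
      ((Real.log 9 + Real.log 3 / 1000 : ℝ) : EReal) := by
    apply Filter.liminf_le_of_frequently_le'
    rw [Filter.frequently_atTop]
    intro N
    refine ⟨1000 ^ (2 * N + 1), ?_, ?_⟩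
    · have : N < 1000 ^ N := Nat.lt_pow_self (by norm_num)
      have h2 : 1000 ^ N ≤ 1000 ^ (2 * N + 1) := Nat.pow_le_pow_right (by norm_num) (by omega)
      omega
    · exact EReal.coe_le_coe_iff.2 (rate_upper N)
  have h2 : ((999 / 2000 * Real.log 84 : ℝ) : EReal) ≤
      Filter.limsup (fun T : ℕ => ((rate T : ℝ) : EReal)) Filter.atTop := by
    apply Filter.le_limsup_of_frequently_le'
    rw [Filter.frequently_atTop]
    intro N
    refine ⟨1000 ^ (2 * N + 2), ?_, ?_⟩
    · have : N < 1000 ^ N := Nat.lt_pow_self (by norm_num)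
      have h2 : 1000 ^ N ≤ 1000 ^ (2 * N + 2) := Nat.pow_le_pow_right (by norm_num) (by omega)
      omega
    · exact EReal.coe_le_coe_iff.2 (rate_lower N)
  exact lt_of_le_of_lt h1 (lt_of_lt_of_le (EReal.coe_lt_coe_iff.2 rates_ne) h2)

end Pool.Agent.W_MP_6f7bab_an
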